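import Pool.Agent.helper10.RG.SpecB

/-!
# Row POL of project rg (MP_2e0e07_nt)
-/

set_option autoImplicit false

universe u v

namespace Pool.Agent.RG

open Matrix Polynomial Pool.Agent.GO Pool.Agent.AR

theorem POL_kron {R S : Type*} [CommRing R] [CommRing S] (φ : R →+* S) {m n : Type*} (A : Matrix m m R)
    (M : Matrix n n R) :
    (kroneckerMap (· * ·) A M).map φ = kroneckerMap (· * ·) (A.map φ) (M.map φ) := by
  ext ⟨i, j⟩ ⟨k, l⟩
  show φ (A i k * M j l) = φ (A i k) * φ (M j l)
  exact map_mul φ _ _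

theorem POL_one {R S : Type*} [CommRing R] [CommRing S] (φ : R →+* S) {m : Type*} [Fintype m] [DecidableEq m] :
    (1 : Matrix m m R).map φ = 1 := by
  have h := map_one (φ.mapMatrix : Matrix m m R →+* Matrix m m S)
  exact h

theorem POL_mul {R S : Type*} [CommRing R] [CommRing S] (φ : R →+* S) {m : Type*} [Fintype m] [DecidableEq m]
    (A B : Matrix m m R) :
    (A * B).map φ = A.map φ * B.map φ := by
  have h := map_mul (φ.mapMatrix : Matrix m m R →+* Matrix m m S) A B
  exact h

theorem POL_add {R S : Type*} [CommRing R] [CommRing S] (φ : R →+* S) {m : Type*} [Fintype m] [DecidableEq m]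
    (A B : Matrix m m R) :
    (A + B).map φ = A.map φ + B.map φ := by
  have h := map_add (φ.mapMatrix : Matrix m m R →+* Matrix m m S) A B
  exact h

theorem POL_sub {R S : Type*} [CommRing R] [CommRing S] (φ : R →+* S) {m : Type*} [Fintype m] [DecidableEq m]
    (A B : Matrix m m R) :
    (A - B).map φ = A.map φ - B.map φ := by
  have h := map_sub (φ.mapMatrix : Matrix m m R →+* Matrix m m S) A B
  exact h

theorem POL_smul {R S : Type*} [CommRing R] [CommRing S] (φ : R →+* S) {m : Type*} [Fintype m] [DecidableEq m]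
    (c : R) (A : Matrix m m R) :
    (c • A).map φ = φ c • A.map φ := by
  ext i j
  show φ (c * A i j) = φ c * φ (A i j)
  exact map_mul φ _ _

theorem POL_gen1 {R S : Type*} [CommRing R] [CommRing S] (φ : R →+* S) {a b : ℕ} (A : Matrix (Fin a) (Fin a) R)
    (M : Matrix (Fin b) (Fin b) R) (T d : R) :
    (gen1 A M T d).map φ = gen1 (A.map φ) (M.map φ) (φ T) (φ d) := by
  unfold gen1
  rw [POL_add, POL_sub, POL_smul, POL_smul, POL_kron, POL_kron, POL_kron, POL_mul, POL_mul, POL_one, POL_one]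

theorem POL_gen2 {R S : Type*} [CommRing R] [CommRing S] (φ : R →+* S) {a b : ℕ} (A : Matrix (Fin a) (Fin a) R)
    (M : Matrix (Fin b) (Fin b) R) (T d : R) :
    (gen2 A M T d).map φ = gen2 (A.map φ) (M.map φ) (φ T) (φ d) := by
  unfold gen2
  rw [POL_add, POL_sub, POL_smul, POL_smul, POL_smul, POL_kron, POL_kron, POL_kron, POL_mul, POL_mul, POL_one,
    POL_one, map_sub, map_mul, map_mul, map_pow, map_pow, map_ofNat]

theorem POL_gen3 {R S : Type*} [CommRing R] [CommRing S] (φ : R →+* S) {a : ℕ} (A : Matrix (Fin a) (Fin a) R)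
    (T d : R) :
    (gen3 A T d).map φ = gen3 (A.map φ) (φ T) (φ d) := by
  unfold gen3
  rw [POL_sub, POL_smul, POL_smul, POL_mul, POL_add, POL_kron, POL_kron, POL_kron, POL_one, map_pow]

theorem POL_genN {R S : Type*} [CommRing R] [CommRing S] (φ : R →+* S) {a b : ℕ} (A : Matrix (Fin a) (Fin a) R)
    (M : Matrix (Fin b) (Fin b) R) (T d : R) :
    φ (genN A M T d) = genN (A.map φ) (M.map φ) (φ T) (φ d) := by
  unfold genN
  have e : ∀ {m : Type} [Fintype m] [DecidableEq m] (B : Matrix m m R), φ B.det = (B.map φ).det := by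
    intro m _ _ B
    exact RingHom.map_det φ B
  rw [map_mul, map_mul, e, e, e, POL_gen1, POL_gen2, POL_gen3]

theorem POL_kron_one {R : Type*} [CommRing R] {m n : Type*} [DecidableEq m] [DecidableEq n] :
    kroneckerMap (· * ·) (1 : Matrix m m R) (1 : Matrix n n R) = 1 :=
  Matrix.kroneckerMap_one_one _ (fun _ => zero_mul _) (fun _ => mul_zero _) (mul_one _)

theorem POL_ne (F : Type*) [Field F] [CharZero F] (a b : ℕ) :
    genN (1 : Matrix (Fin a) (Fin a) F[X]) (1 : Matrix (Fin b) (Fin b) F[X]) X 1 ≠ 0 := by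
  have h1 : gen1 (1 : Matrix (Fin a) (Fin a) F[X]) (1 : Matrix (Fin b) (Fin b) F[X]) X 1 =
      (2 - X : F[X]) • 1 := by
    unfold gen1
    rw [mul_one, mul_one, POL_kron_one, one_smul, sub_smul, two_smul]
    abel
  have h2 : gen2 (1 : Matrix (Fin a) (Fin a) F[X]) (1 : Matrix (Fin b) (Fin b) F[X]) X 1 =
      (2 + 3 * X - X ^ 3 : F[X]) • 1 := by
    have e : ∀ K : Matrix (Fin a × Fin b) (Fin a × Fin b) F[X],
        K - (X ^ 3 - 3 * X : F[X]) • K + K = (2 + 3 * X - X ^ 3 : F[X]) • K := by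
      intro K
      rw [sub_smul, sub_smul, add_smul, two_smul]
      abel
    unfold gen2
    simp only [mul_one, one_pow, one_smul, POL_kron_one]
    rw [e]
  have h3 : gen3 (1 : Matrix (Fin a) (Fin a) F[X]) X 1 = (4 - X ^ 2 : F[X]) • 1 := by
    unfold gen3
    rw [POL_kron_one, one_smul, sub_smul]
    congr 1
    have e : (4 : F[X]) • (1 : Matrix (Fin a × Fin a) (Fin a × Fin a) F[X]) = 1 + 1 + (1 + 1) := by
      have : (4 : F[X]) = 1 + 1 + (1 + 1) := by norm_num
      rw [this, add_smul, add_smul, one_smul]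
    rw [e, mul_add, add_mul, mul_one]
  unfold genN
  rw [h1, h2, h3, Matrix.det_smul, Matrix.det_smul, Matrix.det_smul, Matrix.det_one, Matrix.det_one, mul_one,
    mul_one, mul_one]
  have q1 : (2 - X : F[X]) ≠ 0 := by
    intro h
    have := congrArg (fun p => Polynomial.eval 0 p) h
    simp at this
  have q2 : (2 + 3 * X - X ^ 3 : F[X]) ≠ 0 := by
    intro h
    have := congrArg (fun p => Polynomial.eval 0 p) h
    simp at this
  have q3 : (4 - X ^ 2 : F[X]) ≠ 0 := by
    intro h
    have := congrArg (fun p => Polynomial.eval 0 p) h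
    simp at this
  exact mul_ne_zero (mul_ne_zero (pow_ne_zero _ q1) (pow_ne_zero _ q2)) (pow_ne_zero _ q3)

theorem POL : POL_stmt.{u, v} := by
  intro Γ _ F _ _ a b V0 M ρ
  set W := ds (ds V0 M) (detR ρ) with hW
  set A : Matrix (Fin a) (Fin a) (alg W) := Matrix.of fun i j => gen W (Sum.inl (Sum.inl i)) (Sum.inl (Sum.inl j))
    with hA
  set B : Matrix (Fin b) (Fin b) (alg W) := Matrix.of fun i j => gen W (Sum.inl (Sum.inr i)) (Sum.inl (Sum.inr j))
    with hB
  set D : alg W := gen W (Sum.inr 0) (Sum.inr 0) with hD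
  have eA : ∀ g, A.map ((evG W g : _ →ₐ[F] F) : _ →+* F) = V0 g := by
    intro g
    ext i j
    rfl
  have eB : ∀ g, B.map ((evG W g : _ →ₐ[F] F) : _ →+* F) = M g := by
    intro g
    ext i j
    rfl
  have eD : ∀ g, ((evG W g : _ →ₐ[F] F) : _ →+* F) D = (ρ g).det := by
    intro g
    rfl
  have eC : ∀ (g : Γ) {m : Type} (N : Matrix m m (alg W)),
      (N.map (C : alg W →+* (alg W)[X])).map (Polynomial.mapRingHom ((evG W g : _ →ₐ[F] F) : _ →+* F)) =
        (N.map ((evG W g : _ →ₐ[F] F) : _ →+* F)).map (C : F →+* F[X]) := by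
    intro g m N
    ext i j
    simp
  refine ⟨genN (A.map (C : alg W →+* (alg W)[X])) (B.map (C : alg W →+* (alg W)[X])) X (C D), ?_, ?_⟩
  · intro h
    have h0 := congrArg (Polynomial.mapRingHom ((evG W 1 : _ →ₐ[F] F) : _ →+* F)) h
    rw [map_zero] at h0
    have h2 := (POL_genN (Polynomial.mapRingHom ((evG W 1 : _ →ₐ[F] F) : _ →+* F))
        (A.map (C : alg W →+* (alg W)[X])) (B.map (C : alg W →+* (alg W)[X])) X (C D)).symm.trans h0
    rw [eC, eC, eA, eB, map_one, map_one] at h2
    rw [Polynomial.coe_mapRingHom, Polynomial.map_X, Polynomial.map_C, eD, map_one, Matrix.det_one, map_one,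
      POL_one, POL_one] at h2
    exact POL_ne F a b h2
  · intro g
    have h2 : (genN (A.map (C : alg W →+* (alg W)[X])) (B.map (C : alg W →+* (alg W)[X])) X (C D)).map
        ((evG W g : _ →ₐ[F] F) : _ →+* F) =
        genN ((V0 g).map (C : F →+* F[X])) ((M g).map (C : F →+* F[X])) X (C (ρ g).det) := by
      have h3 := POL_genN (Polynomial.mapRingHom ((evG W g : _ →ₐ[F] F) : _ →+* F))
        (A.map (C : alg W →+* (alg W)[X])) (B.map (C : alg W →+* (alg W)[X])) X (C D)
      rw [eC, eC, eA, eB] at h3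
      rw [Polynomial.coe_mapRingHom, Polynomial.map_X, Polynomial.map_C, eD] at h3
      exact h3
    rw [h2]
    have h4 := POL_genN (Polynomial.evalRingHom (ρ g).trace) ((V0 g).map (C : F →+* F[X]))
      ((M g).map (C : F →+* F[X])) X (C (ρ g).det)
    have e5 : ∀ {m : Type} (N : Matrix m m F),
        (N.map (C : F →+* F[X])).map (Polynomial.evalRingHom (ρ g).trace) = N := by
      intro m N
      ext i j
      simp
    rw [e5, e5, Polynomial.coe_evalRingHom, Polynomial.eval_X, Polynomial.eval_C] at h4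
    exact h4

end Pool.Agent.RG
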