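import Pool.Agent.helper67.RG.Spec

/-!
# Row rg:IRM: if `W ≅ ρ ⊗ M` is irreducible then `M` is irreducible
-/

set_option autoImplicit false

namespace Pool.Agent.RG.IRM

open Matrix Pool.Agent.GO Pool.Agent.AR Pool.Agent.RG Kronecker

/-- the vectors with all slices in `U` -/
def slices {F : Type*} [Field F] {b : ℕ} (U : Submodule F (Fin b → F)) :
    Submodule F (Fin 2 × Fin b → F) where
  carrier := {v | ∀ i, (fun k => v (i, k)) ∈ U}
  add_mem' := by
    intro v w hv hw i
    exact U.add_mem (hv i) (hw i)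
  zero_mem' := by
    intro i
    exact U.zero_mem
  smul_mem' := by
    intro c v hv i
    exact U.smul_mem c (hv i)

theorem slices_stable {F : Type*} [Field F] {b : ℕ} (U : Submodule F (Fin b → F))
    (A : Matrix (Fin 2) (Fin 2) F) (B : Matrix (Fin b) (Fin b) F) (hB : ∀ u ∈ U, B *ᵥ u ∈ U)
    (v : Fin 2 × Fin b → F) (hv : v ∈ slices U) : (A ⊗ₖ B) *ᵥ v ∈ slices U := by
  intro i
  have e : (fun k => ((A ⊗ₖ B) *ᵥ v) (i, k)) = ∑ j, A i j • (B *ᵥ fun l => v (j, l)) := by
    funext k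
    rw [Finset.sum_apply]
    simp only [mulVec, dotProduct, Pi.smul_apply, smul_eq_mul, Fintype.sum_prod_type,
      kroneckerMap_apply, Finset.mul_sum]
    refine Finset.sum_congr rfl fun j _ => Finset.sum_congr rfl fun l _ => ?_
    ring
  rw [e]
  exact U.sum_mem fun j _ => U.smul_mem _ (hB _ (hv j))

theorem IRM : IRM_stmt := by
  intro F Γ _ _ d b W ρ M T T' hb h1 h2 h3 hirr
  refine ⟨⟨⟨0, hb⟩⟩, ?_⟩
  intro U hU
  have hst : ∀ g, ∀ x ∈ (slices U).comap (mulVecLin T'), W g *ᵥ x ∈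
      (slices U).comap (mulVecLin T') := by
    intro g x hx
    have hx' : T' *ᵥ x ∈ slices U := hx
    show T' *ᵥ (W g *ᵥ x) ∈ slices U
    have e : T' * W g = (ρ g ⊗ₖ M g) * T' := by
      have h4 : T' * (W g * T) * T' = T' * (T * (ρ g ⊗ₖ M g)) * T' := by rw [h3]
      rw [← Matrix.mul_assoc T' T, h2, Matrix.one_mul, ← Matrix.mul_assoc T' (W g) T,
        Matrix.mul_assoc (T' * W g) T T', h1, Matrix.mul_one] at h4
      exact h4
    rw [mulVec_mulVec, e, ← mulVec_mulVec]
    exact slices_stable U _ _ (hU g) _ hx'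
  have hmem : ∀ u : Fin b → F, T' *ᵥ (T *ᵥ fun p : Fin 2 × Fin b => u p.2) = fun p => u p.2 := by
    intro u
    rw [mulVec_mulVec, h2, one_mulVec]
  rcases hirr.2 _ hst with h | h
  · left
    rw [Submodule.eq_bot_iff]
    intro u hu
    have h5 : (T *ᵥ fun p : Fin 2 × Fin b => u p.2) ∈ (slices U).comap (mulVecLin T') := by
      show T' *ᵥ (T *ᵥ fun p : Fin 2 × Fin b => u p.2) ∈ slices U
      rw [hmem]
      intro i
      exact hu
    rw [h, Submodule.mem_bot] at h5
    have h6 := hmem u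
    rw [h5, mulVec_zero] at h6
    funext k
    exact (congrFun h6 ((0 : Fin 2), k)).symm
  · right
    rw [Submodule.eq_top_iff']
    intro u
    have h5 : (T *ᵥ fun p : Fin 2 × Fin b => u p.2) ∈ (slices U).comap (mulVecLin T') := by
      rw [h]
      exact Submodule.mem_top
    have h7 : T' *ᵥ (T *ᵥ fun p : Fin 2 × Fin b => u p.2) ∈ slices U := h5
    rw [hmem] at h7
    exact h7 0

end Pool.Agent.RG.IRM
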